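import Pool.Agent.W307.IM.Stm
import Pool.Agent.W505.RK.LS
import Pool.Agent.W262.RK.Bas
import Pool.Agent.Helper256.KM.Mertens

/-!
Few bad moduli (large sieve), project IM.
-/

set_option autoImplicit false

namespace Pool.Agent.W81.IM

open Finset Filter Pool.Agent.W262.RK Pool.Agent.W307.IM

lemma cz_zero (z : ℝ) (w : ℕ) : cz z w 0 = 0 := by
  unfold cz
  rw [if_neg]
  rintro ⟨h, -⟩
  omega

lemma cz_sq_le (z : ℝ) (hz : 0 < z) (hz1 : z < 1) (w l : ℕ) : cz z w l ^ 2 ≤ 1 := by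
  unfold cz
  split_ifs
  · have h1 : z ^ l.primeFactors.card ≤ 1 := pow_le_one₀ hz.le hz1.le
    have h0 : 0 ≤ z ^ l.primeFactors.card := by positivity
    nlinarith
  · norm_num

lemma sum_cz_sq_le (z : ℝ) (hz : 0 < z) (hz1 : z < 1) (w T : ℕ) :
    ∑ l ∈ range (T + 1), cz z w l ^ 2 ≤ T := by
  rw [sum_range_succ', cz_zero]
  have h1 : ∑ i ∈ range T, cz z w (i + 1) ^ 2 ≤ ∑ _i ∈ range T, (1 : ℝ) :=
    sum_le_sum fun i _ => cz_sq_le z hz hz1 w _
  have h2 : ∑ _i ∈ range T, (1 : ℝ) = T := by simp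
  have h3 : (0 : ℝ) ^ 2 = 0 := by norm_num
  rw [h3, add_zero]
  linarith

theorem badf : BADF := by
  intro z lam w T F D hz hz1 hlam hT hF hD
  have h := Pool.Agent.W505.RK.ls D (T + 1) (2 * F) (cz z w)
    (fun d hd => ⟨(hD d hd).1, (hD d hd).2.1, (hD d hd).2.2.2.1⟩)
  have hT0 : (1 : ℝ) ≤ T := by exact_mod_cast hT
  have hTp : (0 : ℝ) < T := by linarith
  have hlow : (D.card : ℝ) * (lam * T) ^ 2 ≤
      ∑ d ∈ D, (∑ l ∈ range (T + 1), cz z w l * Jr l d) ^ 2 := by
    rw [← nsmul_eq_mul, ← sum_const]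
    refine sum_le_sum fun f hf => ?_
    have h1 := (hD f hf).2.2.2.2
    unfold GG at h1
    rw [← sq_abs (∑ l ∈ range (T + 1), cz z w l * Jr l f)]
    have h2 : 0 ≤ lam * T := by positivity
    exact pow_le_pow_left₀ h2 h1.le 2
  have hcard : D.card ≤ F := by
    have hsub : D ⊆ Ioc F (2 * F) := by
      intro f hf
      rw [mem_Ioc]
      exact ⟨(hD f hf).2.2.1, (hD f hf).2.2.2.1⟩
    have := card_le_card hsub
    rw [Nat.card_Ioc] at this
    omega
  have hcard' : (D.card : ℝ) ≤ F := by exact_mod_cast hcard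
  have hF' : (F : ℝ) ^ 3 ≤ T := by exact_mod_cast hF
  have hF0 : (0 : ℝ) ≤ F := by positivity
  have hs := sum_cz_sq_le z hz hz1 w T
  have hup : (((T + 1 : ℕ) : ℝ) + D.card * ((2 * F : ℕ) : ℝ) ^ 2) *
      ∑ l ∈ range (T + 1), cz z w l ^ 2 ≤ 6 * (T : ℝ) ^ 2 := by
    have h3 : (((T + 1 : ℕ) : ℝ) + D.card * ((2 * F : ℕ) : ℝ) ^ 2) ≤ 6 * T := by
      push_cast
      have h4 : (D.card : ℝ) * (2 * F) ^ 2 ≤ F * (2 * F) ^ 2 := by gcongr
      nlinarith
    have h5 : 0 ≤ ∑ l ∈ range (T + 1), cz z w l ^ 2 := sum_nonneg fun _ _ => sq_nonneg _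
    calc _ ≤ (6 * (T : ℝ)) * T := mul_le_mul h3 hs h5 (by positivity)
      _ = _ := by ring
  have hfin : (D.card : ℝ) * (lam * T) ^ 2 ≤ 6 * (T : ℝ) ^ 2 := hlow.trans (h.trans hup)
  have h6 : (D.card : ℝ) * lam ^ 2 ≤ 6 := by
    have h7 : (D.card : ℝ) * lam ^ 2 * (T : ℝ) ^ 2 ≤ 6 * (T : ℝ) ^ 2 := by
      calc _ = (D.card : ℝ) * (lam * T) ^ 2 := by ring
        _ ≤ _ := hfin
    exact le_of_mul_le_mul_right h7 (by positivity)
  rw [le_div_iff₀ (by positivity)]
  linarith

/-- the multiplicative function `κ ^ ω(d) / d` -/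
noncomputable def fk (κ : ℝ) : ArithmeticFunction ℝ :=
  ⟨fun d => if d = 0 then 0 else κ ^ d.primeFactors.card / d, by simp⟩

lemma fk_apply (κ : ℝ) {d : ℕ} (hd : d ≠ 0) : fk κ d = κ ^ d.primeFactors.card / d := by
  show (if d = 0 then 0 else κ ^ d.primeFactors.card / (d : ℝ)) = _
  rw [if_neg hd]

lemma fk_mult (κ : ℝ) : (fk κ).IsMultiplicative := by
  rw [ArithmeticFunction.IsMultiplicative.iff_ne_zero]
  refine ⟨by rw [fk_apply κ one_ne_zero]; simp, fun {m n} hm hn hmn => ?_⟩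
  rw [fk_apply κ (mul_ne_zero hm hn), fk_apply κ hm, fk_apply κ hn, hmn.primeFactors_mul,
    card_union_of_disjoint hmn.disjoint_primeFactors, pow_add]
  push_cast
  rw [mul_div_mul_comm]

lemma prod_eq (κ : ℝ) (w y : ℕ) : ∑ d ∈ (PP w y).divisors, κ ^ d.primeFactors.card / (d : ℝ) =
    ∏ p ∈ PS w y, (1 + κ / p) := by
  have h := (fk_mult κ).prodPrimeFactors_one_add_of_squarefree (PP_squarefree w y)
  rw [PP_primeFactors] at h
  calc _ = ∑ d ∈ (PP w y).divisors, fk κ d := by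
        refine sum_congr rfl fun d hd => ?_
        rw [fk_apply κ (dv_ne_zero hd)]
    _ = _ := h.symm
    _ = _ := by
        refine prod_congr rfl fun p hp => ?_
        have hpp := (mem_PS.1 hp).2
        rw [fk_apply κ hpp.ne_zero, hpp.primeFactors]
        simp

lemma prod_le : ∃ C : ℝ, 0 ≤ C ∧ ∀ κ : ℝ, 0 < κ → ∀ w y T : ℕ, 3 ≤ T → y ≤ T →
    ∏ p ∈ PS w y, (1 + κ / (p : ℝ)) ≤ Real.exp (κ * (Real.log (Real.log T) + C)) := by
  obtain ⟨C, hC⟩ := Pool.Agent.Helper256.KM.mertens_inv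
  have hC0 : 0 ≤ C := (abs_nonneg _).trans (hC 3 le_rfl)
  refine ⟨C, hC0, fun κ hκ w y T hT hy => ?_⟩
  have h1 : ∏ p ∈ PS w y, (1 + κ / (p : ℝ)) ≤ ∏ p ∈ PS w y, Real.exp (κ * (1 / (p : ℝ))) := by
    refine prod_le_prod (fun p _ => by positivity) fun p _ => ?_
    have := Real.add_one_le_exp (κ * (1 / (p : ℝ)))
    have e : κ * (1 / (p : ℝ)) = κ / p := by ring
    rw [e] at this ⊢
    linarith
  refine h1.trans ?_
  rw [← Real.exp_sum, ← mul_sum]
  apply Real.exp_le_exp.2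
  apply mul_le_mul_of_nonneg_left _ hκ.le
  have h2 : ∑ p ∈ PS w y, 1 / (p : ℝ) ≤ ∑ p ∈ (Icc 1 T).filter Nat.Prime, 1 / (p : ℝ) := by
    apply sum_le_sum_of_subset_of_nonneg
    · intro p hp
      have := mem_PS.1 hp
      rw [mem_filter, mem_Icc]
      exact ⟨⟨this.2.one_lt.le, this.1.2.trans hy⟩, this.2⟩
    · intro p _ _
      positivity
  have h3 := abs_le.1 (hC T hT)
  linarith [h3.2]

lemma f_le {w y k T f : ℕ} (hT : 1 ≤ T) (hk : 1 ≤ k) (hf : f ∈ (PP w y).divisors)
    (hc : f.primeFactors.card ≤ k) (hy : (y : ℝ) ≤ (T : ℝ) ^ (1 / (4 * (k : ℝ)))) :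
    f ^ 3 ≤ T := by
  have hT1 : (1 : ℝ) ≤ T := by exact_mod_cast hT
  set b : ℝ := (T : ℝ) ^ (1 / (4 * (k : ℝ))) with hb
  have hb1 : 1 ≤ b := Real.one_le_rpow hT1 (by positivity)
  have h1 : (f : ℝ) = ∏ p ∈ f.primeFactors, (p : ℝ) := by
    rw [← Nat.cast_prod, Nat.prod_primeFactors_of_squarefree (dv_squarefree hf)]
  have h2 : (f : ℝ) ≤ (T : ℝ) ^ (1 / 4 : ℝ) := by
    rw [h1]
    calc ∏ p ∈ f.primeFactors, (p : ℝ) ≤ ∏ _p ∈ f.primeFactors, b := by
          refine prod_le_prod (fun p _ => by positivity) fun p hp => ?_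
          have h2 := (dv_prime hf (Nat.prime_of_mem_primeFactors hp)
            (Nat.dvd_of_mem_primeFactors hp)).2
          exact le_trans (by exact_mod_cast h2) hy
      _ = b ^ f.primeFactors.card := by rw [prod_const]
      _ ≤ b ^ k := pow_le_pow_right₀ hb1 hc
      _ = (T : ℝ) ^ (1 / 4 : ℝ) := by
          have hk0 : (k : ℝ) ≠ 0 := by positivity
          rw [hb, ← Real.rpow_natCast, ← Real.rpow_mul (by linarith)]
          congr 1
          field_simp
  have h3 : (f : ℝ) ^ 3 ≤ T := by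
    calc (f : ℝ) ^ 3 ≤ ((T : ℝ) ^ (1 / 4 : ℝ)) ^ 3 := by gcongr
      _ = (T : ℝ) ^ (3 / 4 : ℝ) := by
          rw [← Real.rpow_natCast, ← Real.rpow_mul (by linarith)]
          norm_num
      _ ≤ (T : ℝ) ^ (1 : ℝ) := Real.rpow_le_rpow_of_exponent_le hT1 (by norm_num)
      _ = T := Real.rpow_one _
  exact_mod_cast h3

lemma sum_inv_le (z lam : ℝ) (w T : ℕ) (hz : 0 < z) (hz1 : z < 1) (hlam : 0 < lam) (hT : 1 ≤ T)
    (hw : 1 ≤ w) (D : Finset ℕ)
    (hD : ∀ f ∈ D, Odd f ∧ Squarefree f ∧ w < f ∧ f ^ 3 ≤ T ∧ lam * T < |GG z w T f|) :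
    ∑ f ∈ D, 1 / (f : ℝ) ≤ ((Nat.log 2 T + 1 : ℕ) : ℝ) * (20 / lam ^ 2 * (2 / w)) := by
  classical
  have hw0 : (0 : ℝ) < w := by exact_mod_cast hw
  have hmaps : ∀ f ∈ D, Nat.log 2 f ∈ range (Nat.log 2 T + 1) := by
    intro f hf
    rw [mem_range, Nat.lt_succ_iff]
    apply Nat.log_mono_right
    have h1 := (hD f hf).2.2.2.1
    have h2 : 1 ≤ f := by have := (hD f hf).2.2.1; omega
    calc f = f ^ 1 := (pow_one f).symm
      _ ≤ f ^ 3 := Nat.pow_le_pow_right h2 (by norm_num)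
      _ ≤ T := h1
  rw [← sum_fiberwise_of_maps_to hmaps]
  calc ∑ i ∈ range (Nat.log 2 T + 1), ∑ f ∈ D with Nat.log 2 f = i, 1 / (f : ℝ)
      ≤ ∑ _i ∈ range (Nat.log 2 T + 1), 20 / lam ^ 2 * (2 / (w : ℝ)) := by
        refine sum_le_sum fun i _ => ?_
        set Di := D.filter (fun f => Nat.log 2 f = i) with hDi
        rcases Di.eq_empty_or_nonempty with h0 | ⟨f0, hf0⟩
        · rw [h0, sum_empty]
          positivity
        have hbd : ∀ f ∈ Di, 2 ^ i < f ∧ f < 2 ^ (i + 1) := by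
          intro f hf
          rw [hDi, mem_filter] at hf
          have h3 := hD f hf.1
          have hf1 : f ≠ 0 := by omega
          have h4 : 2 ^ i ≤ f := by
            have := Nat.pow_log_le_self 2 hf1
            rwa [hf.2] at this
          have h5 : f < 2 ^ (i + 1) := by
            have := Nat.lt_pow_succ_log_self (b := 2) (by norm_num) f
            rwa [hf.2] at this
          refine ⟨lt_of_le_of_ne h4 ?_, h5⟩
          intro he
          rcases Nat.eq_zero_or_pos i with hi | hi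
          · rw [hi] at he
            simp only [pow_zero] at he
            omega
          · have h6 : Even f := by
              rw [← he]
              exact (Nat.even_pow.2 ⟨even_two, by omega⟩)
            exact (Nat.not_even_iff_odd.2 h3.1) h6
        have hcard : (Di.card : ℝ) ≤ 20 / lam ^ 2 := by
          apply badf z lam w T (2 ^ i) Di hz hz1 hlam hT
          · have h7 := (hbd f0 hf0).1
            have h8 := (hD f0 (mem_filter.1 hf0).1).2.2.2.1
            exact (Nat.pow_le_pow_left h7.le 3).trans h8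
          · intro f hf
            have h3 := hD f (mem_filter.1 hf).1
            have h9 := hbd f hf
            refine ⟨h3.1, h3.2.1, h9.1, ?_, h3.2.2.2.2⟩
            have : 2 ^ (i + 1) = 2 * 2 ^ i := by ring
            omega
        have h10 : (w : ℝ) ≤ 2 * 2 ^ i := by
          have h11 := (hD f0 (mem_filter.1 hf0).1).2.2.1
          have h12 := (hbd f0 hf0).2
          have h13 : w ≤ 2 * 2 ^ i := by
            have : 2 ^ (i + 1) = 2 * 2 ^ i := by ring
            omega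
          exact_mod_cast h13
        have h2i : (0 : ℝ) < 2 ^ i := by positivity
        calc ∑ f ∈ Di, 1 / (f : ℝ) ≤ ∑ _f ∈ Di, 1 / (2 : ℝ) ^ i := by
              refine sum_le_sum fun f hf => ?_
              apply one_div_le_one_div_of_le h2i
              exact_mod_cast (hbd f hf).1.le
          _ = Di.card * (1 / (2 : ℝ) ^ i) := by rw [sum_const, nsmul_eq_mul]
          _ ≤ 20 / lam ^ 2 * (2 / w) := by
              have h14 : 1 / (2 : ℝ) ^ i ≤ 2 / w := by
                rw [div_le_div_iff₀ h2i hw0]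
                linarith
              exact mul_le_mul hcard h14 (by positivity) (by positivity)
    _ = _ := by rw [sum_const, card_range, nsmul_eq_mul]

lemma log_le (T : ℕ) (hT : 1 ≤ Real.log T) : ((Nat.log 2 T + 1 : ℕ) : ℝ) ≤ 3 * Real.log T := by
  have hT0 : T ≠ 0 := by
    rintro rfl
    simp at hT
    linarith
  have h1 : (2 : ℝ) ^ (Nat.log 2 T) ≤ T := by exact_mod_cast Nat.pow_log_le_self 2 hT0
  have h2 : (Nat.log 2 T : ℝ) * Real.log 2 ≤ Real.log T := by
    rw [← Real.log_pow]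
    exact Real.log_le_log (by positivity) h1
  have h3 := Real.log_two_gt_d9
  have h4 : (0 : ℝ) ≤ (Nat.log 2 T : ℝ) := by positivity
  push_cast
  nlinarith

open Classical in
lemma split_le (z lam κ : ℝ) (hκ : 0 < κ) (A K0 T : ℕ) :
    ∑ e ∈ Bad z lam A K0 T, κ ^ e.primeFactors.card / (e : ℝ) ≤
      (∑ f ∈ ((PP (wT A T) (yT K0 T)).divisors).filter (fun f => f.primeFactors.card ≤ kT K0 T ∧
        f ≠ 1 ∧ lam * T < |GG z (wT A T) T f|), κ ^ f.primeFactors.card / (f : ℝ)) *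
      ∑ d ∈ (PP (wT A T) (yT K0 T)).divisors, κ ^ d.primeFactors.card / (d : ℝ) := by
  set w := wT A T
  set y := yT K0 T
  set k := kT K0 T
  set Bf := ((PP w y).divisors).filter (fun f => f.primeFactors.card ≤ k ∧
        f ≠ 1 ∧ lam * T < |GG z w T f|) with hBf
  have hex : ∀ e ∈ Bad z lam A K0 T, ∃ f, f ∈ Bf ∧ f ∣ e := by
    intro e he
    unfold Bad ME at he
    rw [mem_filter, mem_filter] at he
    obtain ⟨⟨h1, h2⟩, f, hf, hf1, hf2⟩ := he
    have hfe := Nat.dvd_of_mem_divisors hf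
    refine ⟨f, ?_, hfe⟩
    rw [hBf, mem_filter]
    refine ⟨?_, ?_, hf1, hf2⟩
    · rw [Nat.mem_divisors]
      exact ⟨hfe.trans (Nat.dvd_of_mem_divisors h1), PP_ne_zero _ _⟩
    · exact (card_le_card (Nat.primeFactors_mono hfe (dv_ne_zero h1))).trans h2
  choose! φ hφ using hex
  have hdv : ∀ e ∈ Bad z lam A K0 T, e ∈ (PP w y).divisors := by
    intro e he
    unfold Bad ME at he
    rw [mem_filter, mem_filter] at he
    exact he.1.1
  rw [sum_mul_sum, ← sum_product']
  have hinj : Set.InjOn (fun e => (φ e, e / φ e)) (Bad z lam A K0 T : Set ℕ) := by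
    intro a ha b hb hab
    simp only [Prod.mk.injEq] at hab
    have h1 := Nat.mul_div_cancel' (hφ a ha).2
    have h2 := Nat.mul_div_cancel' (hφ b hb).2
    rw [← h1, ← h2, hab.2, hab.1]
  have hterm : ∀ e ∈ Bad z lam A K0 T, κ ^ e.primeFactors.card / (e : ℝ) =
      (fun x : ℕ × ℕ => κ ^ x.1.primeFactors.card / (x.1 : ℝ) *
        (κ ^ x.2.primeFactors.card / (x.2 : ℝ))) (φ e, e / φ e) := by
    intro e he
    have h1 := Nat.mul_div_cancel' (hφ e he).2
    have hsq := dv_squarefree (hdv e he)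
    have hcop : (φ e).Coprime (e / φ e) := by
      apply Nat.coprime_of_squarefree_mul
      rw [h1]
      exact hsq
    have hf0 : φ e ≠ 0 := by
      have := (mem_filter.1 (hφ e he).1).1
      exact dv_ne_zero this
    have hg0 : e / φ e ≠ 0 := by
      intro h0
      rw [h0, mul_zero] at h1
      exact dv_ne_zero (hdv e he) h1.symm
    have h2 := (fk_mult κ).map_mul_of_coprime hcop
    rw [h1, fk_apply κ (dv_ne_zero (hdv e he)), fk_apply κ hf0, fk_apply κ hg0] at h2
    exact h2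
  rw [sum_congr rfl hterm, ← sum_image (f := fun x : ℕ × ℕ => κ ^ x.1.primeFactors.card / (x.1 : ℝ) *
        (κ ^ x.2.primeFactors.card / (x.2 : ℝ))) hinj]
  apply sum_le_sum_of_subset_of_nonneg
  · intro x hx
    rw [mem_image] at hx
    obtain ⟨e, he, rfl⟩ := hx
    rw [mem_product]
    refine ⟨(hφ e he).1, ?_⟩
    rw [Nat.mem_divisors]
    exact ⟨(Nat.div_dvd_of_dvd (hφ e he).2).trans (Nat.dvd_of_mem_divisors (hdv e he)),
      PP_ne_zero _ _⟩
  · intro x _ _
    positivity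

open Classical in
theorem bade : BADE := by
  intro z κ B K0 hz hz1 hκ
  obtain ⟨C, hC0, hC⟩ := prod_le
  set lam1 : ℝ := max 1 κ with hlam1
  have hl1 : 1 ≤ lam1 := le_max_left _ _
  have hl0 : 0 < lam1 := by linarith
  set E1 : ℕ := ⌈(K0 : ℝ) * Real.log lam1⌉₊ with hE1
  set E2 : ℕ := ⌈κ⌉₊ with hE2
  set M : ℝ := 120 * lam1 * Real.exp (κ * C) with hM
  have hM0 : 0 < M := by positivity
  refine ⟨E1 + E2 + 2 * B + 4, fun A hA => ?_⟩
  have hlim : Tendsto (fun T : ℕ => Real.log (T : ℝ)) atTop atTop :=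
    Real.tendsto_log_atTop.comp tendsto_natCast_atTop_atTop
  obtain ⟨T0, hT0⟩ := eventually_atTop.1 (hlim.eventually_ge_atTop (max M 2))
  refine ⟨max T0 3, fun T hT => ?_⟩
  have hT3 : 3 ≤ T := (le_max_right _ _).trans hT
  have hT1 : 1 ≤ T := by omega
  set L : ℝ := Real.log T with hL
  have hLM : M ≤ L := (le_max_left _ _).trans (hT0 T ((le_max_left _ _).trans hT))
  have hL2 : 2 ≤ L := (le_max_right _ _).trans (hT0 T ((le_max_left _ _).trans hT))
  have hL1 : 1 ≤ L := by linarith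
  have hL0 : 0 < L := by linarith
  have hLL : 0 ≤ Real.log L := Real.log_nonneg hL1
  have hTr : (1 : ℝ) ≤ T := by exact_mod_cast hT1
  set lam : ℝ := 1 / L ^ B with hlam
  have hlam0 : 0 < lam := by positivity
  refine (split_le z lam κ hκ A K0 T).trans ?_
  set w := wT A T with hw
  set y := yT K0 T with hy
  set k := kT K0 T with hk
  set Bf := ((PP w y).divisors).filter (fun f => f.primeFactors.card ≤ k ∧
        f ≠ 1 ∧ lam * T < |GG z w T f|) with hBf
  have hwL : L ^ A ≤ (w : ℝ) := by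
    rw [hw]
    unfold wT
    push_cast
    have := (Nat.lt_floor_add_one (L ^ A)).le
    linarith
  have hw5 : 5 ≤ w := by rw [hw]; unfold wT; omega
  have hk1 : 1 ≤ k := by rw [hk]; unfold kT; omega
  have hyT : (y : ℝ) ≤ (T : ℝ) ^ (1 / (4 * (k : ℝ))) := by
    rw [hy]
    unfold yT
    exact Nat.floor_le (by positivity)
  have hyle : y ≤ T := by
    have h1 : (y : ℝ) ≤ T := by
      refine hyT.trans ?_
      calc (T : ℝ) ^ (1 / (4 * (k : ℝ))) ≤ (T : ℝ) ^ (1 : ℝ) := by
            apply Real.rpow_le_rpow_of_exponent_le hTr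
            rw [div_le_one (by positivity)]
            have : (1 : ℝ) ≤ k := by exact_mod_cast hk1
            linarith
        _ = T := Real.rpow_one _
    exact_mod_cast h1
  -- the second factor
  have hsec : ∑ d ∈ (PP w y).divisors, κ ^ d.primeFactors.card / (d : ℝ) ≤
      L ^ E2 * Real.exp (κ * C) := by
    rw [prod_eq]
    refine (hC κ hκ w y T hT3 hyle).trans ?_
    rw [mul_add, Real.exp_add]
    apply mul_le_mul_of_nonneg_right _ (Real.exp_pos _).le
    calc Real.exp (κ * Real.log L) ≤ Real.exp (E2 * Real.log L) := by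
          apply Real.exp_le_exp.2
          apply mul_le_mul_of_nonneg_right (Nat.le_ceil κ) hLL
      _ = L ^ E2 := by
          rw [← Real.log_pow, Real.exp_log (by positivity)]
  -- the powers
  have hpow : lam1 ^ k ≤ lam1 * L ^ E1 := by
    have h1 : lam1 ^ k = lam1 * lam1 ^ ⌊(K0 : ℝ) * Real.log L⌋₊ := by
      rw [hk]
      unfold kT
      rw [pow_succ, mul_comm]
    rw [h1]
    apply mul_le_mul_of_nonneg_left _ hl0.le
    have hlog : 0 ≤ Real.log lam1 := Real.log_nonneg hl1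
    have hgen : ∀ m : ℕ, lam1 ^ m = Real.exp ((m : ℝ) * Real.log lam1) := by
      intro m
      rw [← Real.log_pow, Real.exp_log (by positivity)]
    calc lam1 ^ ⌊(K0 : ℝ) * Real.log L⌋₊ = Real.exp (⌊(K0 : ℝ) * Real.log L⌋₊ * Real.log lam1) :=
          hgen _
      _ ≤ Real.exp ((K0 : ℝ) * Real.log L * Real.log lam1) := by
          apply Real.exp_le_exp.2
          apply mul_le_mul_of_nonneg_right _ hlog
          exact Nat.floor_le (by positivity)
      _ ≤ Real.exp (E1 * Real.log L) := by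
          apply Real.exp_le_exp.2
          have h2 : (K0 : ℝ) * Real.log L * Real.log lam1 = (K0 : ℝ) * Real.log lam1 * Real.log L := by
            ring
          rw [h2]
          exact mul_le_mul_of_nonneg_right (Nat.le_ceil _) hLL
      _ = L ^ E1 := by rw [← Real.log_pow, Real.exp_log (by positivity)]
  -- the first factor
  have hinv : ∑ f ∈ Bf, 1 / (f : ℝ) ≤ 3 * L * (20 * L ^ (2 * B) * (2 / L ^ A)) := by
    have h1 := sum_inv_le z lam w T hz hz1 hlam0 hT1 (by omega) Bf (by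
      intro f hf
      rw [hBf, mem_filter] at hf
      obtain ⟨hfd, hfc, hf1, hf2⟩ := hf
      refine ⟨dv_odd (by omega) hfd, dv_squarefree hfd, ?_, f_le hT1 hk1 hfd hfc hyT, hf2⟩
      obtain ⟨p, hp, hpf⟩ := Nat.exists_prime_and_dvd hf1
      have h3 := (dv_prime hfd hp hpf).1
      exact lt_of_lt_of_le h3 (Nat.le_of_dvd (dv_pos hfd) hpf))
    refine h1.trans ?_
    have h2 := log_le T hL1
    have h3 : 20 / lam ^ 2 = 20 * L ^ (2 * B) := by
      rw [hlam]
      field_simp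
      ring
    rw [h3]
    have h4 : 2 / (w : ℝ) ≤ 2 / L ^ A := by
      apply div_le_div_of_nonneg_left (by norm_num) (by positivity) hwL
    gcongr
  have hfirst : ∑ f ∈ Bf, κ ^ f.primeFactors.card / (f : ℝ) ≤
      lam1 * L ^ E1 * (3 * L * (20 * L ^ (2 * B) * (2 / L ^ A))) := by
    calc ∑ f ∈ Bf, κ ^ f.primeFactors.card / (f : ℝ) ≤ ∑ f ∈ Bf, lam1 ^ k * (1 / (f : ℝ)) := by
          refine sum_le_sum fun f hf => ?_
          rw [hBf, mem_filter] at hf
          have h1 : κ ^ f.primeFactors.card ≤ lam1 ^ k :=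
            (pow_le_pow_left₀ hκ.le (le_max_right _ _) _).trans (pow_le_pow_right₀ hl1 hf.2.1)
          rw [mul_one_div]
          gcongr
      _ = lam1 ^ k * ∑ f ∈ Bf, 1 / (f : ℝ) := by rw [mul_sum]
      _ ≤ _ := mul_le_mul hpow hinv (sum_nonneg fun _ _ => by positivity) (by positivity)
  calc (∑ f ∈ Bf, κ ^ f.primeFactors.card / (f : ℝ)) *
        ∑ d ∈ (PP w y).divisors, κ ^ d.primeFactors.card / (d : ℝ)
      ≤ (lam1 * L ^ E1 * (3 * L * (20 * L ^ (2 * B) * (2 / L ^ A)))) *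
        (L ^ E2 * Real.exp (κ * C)) :=
        mul_le_mul hfirst hsec (sum_nonneg fun _ _ => by positivity) (by positivity)
    _ = M * (L ^ (E1 + E2 + 2 * B + 1) / L ^ A) := by
        rw [hM]
        ring
    _ ≤ M * (1 / L ^ 3) := by
        apply mul_le_mul_of_nonneg_left _ hM0.le
        rw [div_le_div_iff₀ (by positivity) (by positivity), ← pow_add, one_mul]
        exact pow_le_pow_right₀ hL1 (by omega)
    _ ≤ 1 / L := by
        rw [mul_one_div, div_le_div_iff₀ (by positivity) hL0]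
        nlinarith [mul_nonneg (mul_nonneg hL0.le hL0.le) (sub_nonneg.2 hL1), mul_nonneg hL0.le (sub_nonneg.2 hLM), mul_pos hL0 hL0]

end Pool.Agent.W81.IM
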